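import Pool.Agent.H14.FRU.TDefs

/-!
# Module ZFL: the ladder principle for the class of all sets
-/

set_option linter.unusedVariables false

open Set Topology Cardinal

namespace FRU

/-- membership -/
abbrev zflE : ZFSet.{0} → ZFSet.{0} → Prop := fun x y => x ∈ y

/-- the natural numbers -/
noncomputable def zflN (n : ℕ) : ZFSet.{0} := (n : Ordinal.{0}).toZFSet

theorem zflN_mem {m n : ℕ} : zflN m ∈ zflN n ↔ m < n := by
  unfold zflN
  rw [Ordinal.toZFSet_mem_toZFSet_iff]
  exact Nat.cast_lt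

theorem zflN_inj {m n : ℕ} (h : zflN m = zflN n) : m = n := by
  have := Ordinal.toZFSet_injective h
  exact_mod_cast this

theorem zflN_zero : zflN 0 = ∅ := by
  unfold zflN
  rw [Nat.cast_zero, Ordinal.toZFSet_zero]

theorem zflN_succ (n : ℕ) : zflN (n + 1) = insert (zflN n) (zflN n) := by
  unfold zflN
  rw [Nat.cast_succ, Ordinal.toZFSet_add_one]

theorem zfl_mem_N {n : ℕ} {x : ZFSet.{0}} (h : x ∈ zflN n) : ∃ i, i < n ∧ x = zflN i := by
  unfold zflN at h
  rw [Ordinal.mem_toZFSet_iff] at h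
  obtain ⟨a, ha, rfl⟩ := h
  obtain ⟨i, rfl⟩ := Ordinal.lt_omega0.1 (ha.trans (Ordinal.natCast_lt_omega0 n))
  exact ⟨i, by exact_mod_cast ha, rfl⟩

theorem zfl_op {z a b : ZFSet.{0}} : IsOP zflE z a b ↔ z = ZFSet.pair a b := by
  constructor
  · rintro ⟨s, t, hs, ht, hz⟩
    have h1 : s = {a} := by
      ext w
      rw [ZFSet.mem_singleton]
      exact hs w
    have h2 : t = {a, b} := by
      ext w
      rw [ZFSet.mem_pair]
      exact ht w
    unfold ZFSet.pair
    ext w
    rw [ZFSet.mem_pair, ← h1, ← h2]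
    exact hz w
  · rintro rfl
    refine ⟨{a}, {a, b}, fun w => ZFSet.mem_singleton, fun w => ZFSet.mem_pair, fun w => ?_⟩
    unfold ZFSet.pair
    exact ZFSet.mem_pair

theorem zfl_pi {a b R : ZFSet.{0}} : PairIn zflE a b R ↔ ZFSet.pair a b ∈ R := by
  constructor
  · rintro ⟨z, hz, hz'⟩
    rw [zfl_op] at hz
    rw [← hz]
    exact hz'
  · intro h
    exact ⟨_, zfl_op.2 rfl, h⟩

theorem zfl_ind {z : ZFSet.{0}} (h : IsInductive zflE z) (n : ℕ) : zflN n ∈ z := by
  induction n with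
  | zero =>
    obtain ⟨t, ht, htz⟩ := h.1
    have : t = zflN 0 := by
      rw [zflN_zero, ZFSet.eq_empty]
      exact ht
    rw [← this]
    exact htz
  | succ n ih =>
    obtain ⟨s, hs, hsz⟩ := h.2 _ ih
    have : s = zflN (n + 1) := by
      rw [zflN_succ]
      ext t
      rw [ZFSet.mem_insert_iff]
      exact (hs t).trans or_comm
    rw [← this]
    exact hsz

theorem zfl_omega {o : ZFSet.{0}} (h : IsOmega zflE o) {x : ZFSet.{0}} :
    x ∈ o ↔ ∃ n, x = zflN n := by
  constructor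
  · intro hx
    have hi : IsInductive zflE (ZFSet.sep (fun x => ∃ n, x = zflN n) o) := by
      refine ⟨⟨zflN 0, ?_, ?_⟩, ?_⟩
      · rw [zflN_zero]
        exact fun s => ZFSet.notMem_empty s
      · exact ZFSet.mem_sep.2 ⟨zfl_ind h.1 0, 0, rfl⟩
      · intro y hy
        obtain ⟨hy1, n, rfl⟩ := ZFSet.mem_sep.1 hy
        refine ⟨zflN (n + 1), ?_, ZFSet.mem_sep.2 ⟨zfl_ind h.1 _, n + 1, rfl⟩⟩
        intro t
        show t ∈ zflN (n + 1) ↔ _
        rw [zflN_succ, ZFSet.mem_insert_iff]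
        exact or_comm
    have := h.2 _ hi x hx
    exact (ZFSet.mem_sep.1 this).2
  · rintro ⟨n, rfl⟩
    exact zfl_ind h.1 n

/-- members of internally countable sets -/
theorem zfl_countable {x : ZFSet.{0}} (h : IsCountable zflE x) :
    Countable {z : ZFSet.{0} // z ∈ x} := by
  obtain ⟨o, f, ho, h1, h2, h3⟩ := h
  have h4 : ∀ y : {z : ZFSet.{0} // z ∈ x}, ∃ n : ℕ, PairIn zflE y.1 (zflN n) f := by
    intro y
    obtain ⟨n, hn, hn'⟩ := h1 y.1 y.2
    obtain ⟨m, rfl⟩ := (zfl_omega ho).1 hn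
    exact ⟨m, hn'⟩
  choose g hg using h4
  refine Function.Injective.countable (f := g) ?_
  intro y y' hyy
  refine Subtype.ext (h3 y.1 y'.1 (zflN (g y)) y.2 y'.2 (hg y) ?_)
  rw [hyy]
  exact hg y'

theorem zfl_countable' {x o : ZFSet.{0}} (ho : IsOmega zflE o)
    (h : Countable {z : ZFSet.{0} // z ∈ x}) : IsCountable zflE x := by
  classical
  obtain ⟨g, hg⟩ := exists_injective_nat {z : ZFSet.{0} // z ∈ x}
  let f : ZFSet.{0} := ZFSet.sep (fun p => ∃ (z : {z : ZFSet.{0} // z ∈ x}),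
    p = ZFSet.pair z.1 (zflN (g z))) (ZFSet.prod x o)
  have hf : ∀ y n, PairIn zflE y n f ↔ ∃ hy : y ∈ x, n = zflN (g ⟨y, hy⟩) := by
    intro y n
    rw [zfl_pi, ZFSet.mem_sep]
    constructor
    · rintro ⟨-, z, hz⟩
      rw [ZFSet.pair_inj] at hz
      obtain ⟨rfl, rfl⟩ := hz
      exact ⟨z.2, rfl⟩
    · rintro ⟨hy, rfl⟩
      refine ⟨?_, ⟨y, hy⟩, rfl⟩
      rw [ZFSet.pair_mem_prod]
      exact ⟨hy, (zfl_omega ho).2 ⟨_, rfl⟩⟩
  refine ⟨o, f, ho, ?_, ?_, ?_⟩
  · intro y hy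
    exact ⟨zflN (g ⟨y, hy⟩), (zfl_omega ho).2 ⟨_, rfl⟩, (hf _ _).2 ⟨hy, rfl⟩⟩
  · intro y n n' hn hn'
    obtain ⟨hy, rfl⟩ := (hf _ _).1 hn
    obtain ⟨hy', rfl⟩ := (hf _ _).1 hn'
    rfl
  · intro y y' n hy hy' hn hn'
    obtain ⟨_, e1⟩ := (hf _ _).1 hn
    obtain ⟨_, e2⟩ := (hf _ _).1 hn'
    have := hg (zflN_inj (e1.symm.trans e2))
    exact congrArg Subtype.val this

theorem zfl_finite {x : ZFSet.{0}} (h : IsFinite zflE x) : {z : ZFSet.{0} | z ∈ x}.Finite := by
  obtain ⟨o, m, f, ho, hm, h1, h2, h3⟩ := h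
  obtain ⟨M, rfl⟩ := (zfl_omega ho).1 hm
  have h4 : ∀ y : {z : ZFSet.{0} // z ∈ x}, ∃ n : Fin M, PairIn zflE y.1 (zflN n) f := by
    intro y
    obtain ⟨n, hn, hn'⟩ := h1 y.1 y.2
    obtain ⟨i, hi, rfl⟩ := zfl_mem_N hn
    exact ⟨⟨i, hi⟩, hn'⟩
  choose g hg using h4
  have : Finite {z : ZFSet.{0} // z ∈ x} := by
    refine Finite.of_injective g ?_
    intro y y' hyy
    refine Subtype.ext (h3 y.1 y'.1 (zflN (g y)) y.2 y'.2 (hg y) ?_)
    rw [hyy]
    exact hg y'
  exact Set.finite_coe_iff.1 this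

theorem zfl_fun {v w o : ZFSet.{0}} (ho : IsOmega zflE o) (hv : IsFunction zflE v w o) :
    ∃ g : {z : ZFSet.{0} // z ∈ w} → ℕ, ∀ z n, PairIn zflE z.1 (zflN n) v ↔ n = g z := by
  have h4 : ∀ z : {z : ZFSet.{0} // z ∈ w}, ∃ n : ℕ, PairIn zflE z.1 (zflN n) v ∧
      ∀ y, PairIn zflE z.1 y v → y = zflN n := by
    intro z
    obtain ⟨y, hy, hy'⟩ := hv.2 z.1 z.2
    obtain ⟨p, hp, hpv⟩ := hy
    obtain ⟨a, b, ha, hb, hab⟩ := hv.1 p hpv
    rw [zfl_op] at hp hab
    have : y = b := by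
      have := hp.symm.trans hab
      rw [ZFSet.pair_inj] at this
      exact this.2
    obtain ⟨n, hn⟩ := (zfl_omega ho).1 hb
    rw [← this] at hn
    subst hn
    exact ⟨n, ⟨p, zfl_op.2 hp, hpv⟩, hy'⟩
  choose g hg hg' using h4
  refine ⟨g, fun z n => ⟨fun h => zflN_inj (hg' z _ h), ?_⟩⟩
  rintro rfl
  exact hg z

theorem fru_zfl : ZFLStmt := by
  classical
  rintro ⟨w, o, h, r, hw, ho, hh, hlen, hinj, hcap⟩
  change IsOmegaOne zflE w at hw
  change IsOmega zflE o at ho
  -- the type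
  let W0 : Type 1 := {z : ZFSet.{0} // z ∈ w}
  have hsmall : Small.{0} W0 := ZFSet.small_coe w
  let W : Type := Shrink.{0} W0
  let φ : W → W0 := (equivShrink W0).symm
  have hφ : Function.Bijective φ := (equivShrink W0).symm.bijective
  have hord : w.IsOrdinal := by
    constructor
    · intro y hy z hz
      exact hw.1.1 y hy z hz
    · intro y z v hyz hzv hv
      exact hw.1.2 v hv z hzv y hyz
  have hordm : ∀ z : W0, z.1.IsOrdinal := fun z => hord.mem z.2
  let ρ : W → Ordinal := fun a => (φ a).1.rank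
  have hρ : Function.Injective ρ := by
    intro a b hab
    exact hφ.1 (Subtype.ext ((ZFSet.IsOrdinal.rank_inj (hordm _) (hordm _)).1 hab))
  let LO : LinearOrder W := LinearOrder.lift' ρ hρ
  have hlt : ∀ a b : W, LO.lt a b ↔ (φ a).1 ∈ (φ b).1 := by
    intro a b
    rw [← ZFSet.IsOrdinal.rank_lt_iff_mem (hordm _) (hordm _)]
    exact Iff.rfl
  -- the ladder
  have hh' : ∀ (d a : W) (n : ℕ), LO.lt a d → ∃ (K : ℕ) (F : ZFSet.{0}),
      LadderVal zflE h (φ d).1 (φ a).1 (zflN n) (zflN K) F ∧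
      ∀ k' F', LadderVal zflE h (φ d).1 (φ a).1 (zflN n) k' F' → k' = zflN K ∧ F' = F := by
    intro d a n had
    obtain ⟨k, F, hk, -, hv, hu⟩ := hh (φ d).1 (φ a).1 (zflN n) (φ d).2 ((hlt a d).1 had)
      ((zfl_omega ho).2 ⟨n, rfl⟩)
    obtain ⟨K, rfl⟩ := (zfl_omega ho).1 hk
    exact ⟨K, F, hv, hu⟩
  let K : W → W → ℕ → ℕ := fun d a n => if had : LO.lt a d then
    Classical.choose (hh' d a n had) else 0
  let F : W → W → ℕ → ZFSet.{0} := fun d a n => if had : LO.lt a d then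
    Classical.choose (Classical.choose_spec (hh' d a n had)) else ∅
  have hKF : ∀ d a n, LO.lt a d → LadderVal zflE h (φ d).1 (φ a).1 (zflN n) (zflN (K d a n)) (F d a n) := by
    intro d a n had
    show LadderVal zflE h (φ d).1 (φ a).1 (zflN n) (zflN (if had : LO.lt a d then
      Classical.choose (hh' d a n had) else 0)) (if had : LO.lt a d then
      Classical.choose (Classical.choose_spec (hh' d a n had)) else ∅)
    rw [dif_pos had, dif_pos had]
    exact (Classical.choose_spec (Classical.choose_spec (hh' d a n had))).1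
  let H : W → W → ℕ → List Bool := fun d a n =>
    (List.range (K d a n)).map (fun i => decide (zflN i ∈ F d a n))
  have hHlen : ∀ d a n, (H d a n).length = K d a n := by
    intro d a n
    show ((List.range (K d a n)).map (fun i => decide (zflN i ∈ F d a n))).length = _
    rw [List.length_map, List.length_range]
  -- subsets
  let S : Set W → ZFSet.{0} := fun X => ZFSet.sep (fun z => ∃ a ∈ X, z = (φ a).1) w
  have hS : ∀ X, Incl zflE (S X) w := fun X z hz => (ZFSet.mem_sep.1 hz).1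
  have hSm : ∀ X a, (φ a).1 ∈ S X ↔ a ∈ X := by
    intro X a
    rw [ZFSet.mem_sep]
    constructor
    · rintro ⟨-, b, hb, hab⟩
      have := hφ.1 (Subtype.ext hab)
      rw [this]
      exact hb
    · intro ha
      exact ⟨(φ a).2, a, ha, rfl⟩
  have hSi : Function.Injective S := by
    intro X Y hXY
    ext a
    rw [← hSm X a, hXY, hSm Y a]
  have hcap' : ∀ X : Set W, ∃ (y : ZFSet.{0}) (A j : W → ℕ), PairIn zflE (S X) y r ∧
      Incl zflE y o ∧ ∀ d : W, ∃ s : ZFSet.{0}, IsFinite zflE s ∧ ∀ a : W, LO.lt a d →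
        (φ a).1 ∉ s → K d a (A a) ≤ j a ∨
          ∀ i, zflN i ∈ F d a (A a) ↔ i < K d a (A a) ∧ zflN i ∈ y := by
    intro X
    obtain ⟨y, A, j, h1, h2, h3, h4, h5⟩ := hcap (S X) (hS X)
    obtain ⟨A', hA'⟩ := zfl_fun ho h3
    obtain ⟨j', hj'⟩ := zfl_fun ho h4
    refine ⟨y, fun a => A' (φ a), fun a => j' (φ a), h1, h2, fun d => ?_⟩
    obtain ⟨s, hs, hs'⟩ := h5 (φ d).1 (φ d).2
    refine ⟨s, hs, fun a had has => ?_⟩
    rcases hs' (φ a).1 (zflN (A' (φ a))) (zflN (j' (φ a))) (zflN (K d a (A' (φ a))))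
      (F d a (A' (φ a))) ((hlt a d).1 had) has ((hA' _ _).2 rfl) ((hj' _ _).2 rfl)
      (hKF d a _ had) with h6 | h6
    · left
      by_contra hlt'
      rw [not_le] at hlt'
      exact lt_irrefl _ (zflN_mem.1 (h6 _ (zflN_mem.2 hlt')))
    · right
      intro i
      refine (h6 (zflN i)).trans ?_
      exact and_congr_left fun _ => zflN_mem
  choose y A j hy1 hy2 hy3 using hcap'
  refine ⟨W, LO, H, fun X i => decide (zflN i ∈ y X), A, j, ?_, ?_, ?_, ?_⟩
  · -- countable sets are bounded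
    intro C hC
    by_contra hcon
    refine hw.2.1 (zfl_countable' ho ?_)
    have hsub : {z : ZFSet.{0} | z ∈ w} ⊆
        ⋃ c ∈ C, ({z : ZFSet.{0} | z ∈ (φ c).1} ∪ {(φ c).1}) := by
      intro z hz
      obtain ⟨a, ha⟩ := hφ.2 ⟨z, hz⟩
      have h1 : ∃ c ∈ C, ¬ LO.lt c a := by
        by_contra h2
        refine hcon ⟨a, fun c hc => ?_⟩
        by_contra h3
        exact h2 ⟨c, hc, h3⟩
      obtain ⟨c, hc, hca⟩ := h1
      refine Set.mem_biUnion hc ?_
      have h4 := ZFSet.IsOrdinal.mem_trichotomous (hordm (φ a)) (hordm (φ c))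
      have haz : (φ a).1 = z := congrArg Subtype.val ha
      rcases h4 with h4 | h4 | h4
      · left
        rw [← haz]
        exact h4
      · right
        rw [← haz]
        exact h4
      · exact absurd ((hlt c a).2 h4) hca
    have hcnt : {z : ZFSet.{0} | z ∈ w}.Countable := by
      refine (hC.biUnion fun c _ => ?_).mono hsub
      refine Set.Countable.union ?_ (Set.countable_singleton _)
      exact Set.countable_coe_iff.1 (zfl_countable (hw.2.2 (φ c).1 (φ c).2))
    exact Set.countable_coe_iff.2 hcnt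
  · intro X Y hXY
    have hyy : y X = y Y := by
      ext z
      constructor
      · intro hz
        obtain ⟨n, rfl⟩ := (zfl_omega ho).1 (hy2 X z hz)
        have := congrFun hXY n
        simpa [hz] using this
      · intro hz
        obtain ⟨n, rfl⟩ := (zfl_omega ho).1 (hy2 Y z hz)
        have := congrFun hXY n
        simpa [hz] using this
    have h1 := hy1 X
    rw [hyy] at h1
    exact hSi (hinj _ _ _ (hS X) (hS Y) h1 (hy1 Y))
  · intro d n l
    obtain ⟨s, hs, hs'⟩ := hlen (φ d).1 (zflN n) (zflN l) (φ d).2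
      ((zfl_omega ho).2 ⟨n, rfl⟩) ((zfl_omega ho).2 ⟨l, rfl⟩)
    have hfin := zfl_finite hs
    refine (Set.Finite.preimage (f := fun a : W => (φ a).1) ?_ hfin).subset ?_
    · intro a _ b _ hab
      exact hφ.1 (Subtype.ext hab)
    · rintro a ⟨had, hal⟩
      rw [hHlen] at hal
      refine hs' (φ a).1 (zflN (K d a n)) (F d a n) ((hlt a d).1 had) (hKF d a n had) ?_
      intro z hz
      obtain ⟨i, hi, rfl⟩ := zfl_mem_N hz
      exact zflN_mem.2 (lt_of_lt_of_le hi hal)
  · intro X d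
    obtain ⟨s, hs, hs'⟩ := hy3 X d
    have hfin := zfl_finite hs
    refine (Set.Finite.preimage (f := fun a : W => (φ a).1) ?_ hfin).subset ?_
    · intro a _ b _ hab
      exact hφ.1 (Subtype.ext hab)
    · rintro a ⟨had, hal⟩
      show (φ a).1 ∈ s
      by_contra has
      apply hal
      rw [hHlen]
      rcases hs' a had has with h6 | h6
      · exact Or.inl h6
      · right
        show (List.range (K d a (A X a))).map (fun i => decide (zflN i ∈ F d a (A X a))) =
          (List.range (K d a (A X a))).map (fun i => decide (zflN i ∈ y X))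
        refine List.map_congr_left fun i hi => ?_
        rw [List.mem_range] at hi
        rw [decide_eq_decide, h6 i]
        exact ⟨fun h => h.2, fun h => ⟨hi, h⟩⟩

end FRU
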